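import Mathlib

set_option autoImplicit false

/-!
# Fox ideals of partial resolutions with non-minimal Euler characteristic

We exhibit a finitely generated group `G` and a finitely generated free first partial resolution of
`G` with non-minimal directed Euler characteristic whose Fox ideal is a proper ideal.
-/

namespace Pool.Agent.Results.MP_cfa383_al.FoxIdeal

open scoped BigOperators

/-- The trivial `ℤG`-module `ℤ`. -/
abbrev TrivialModule (G : Type) [Group G] : Type :=
  (Representation.trivial ℤ G ℤ).asModule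

/-- A finitely generated free `m`-th partial resolution
`C_m → ⋯ → C_0 → ℤ → 0` of `G`, where `C_i = (ℤG)^(rank i)`; only the data in degrees at most `m`
matter. -/
structure PartialResolution (G : Type) [Group G] (m : ℕ) where
  /-- the rank of `C_i` -/
  rank : ℕ → ℕ
  /-- the map `∂_0 : C_0 → ℤ` -/
  aug : (Fin (rank 0) → MonoidAlgebra ℤ G) →ₗ[MonoidAlgebra ℤ G] TrivialModule G
  /-- `d i` is the map `∂_(i+1) : C_(i+1) → C_i` -/
  d : ∀ i : ℕ, (Fin (rank (i + 1)) → MonoidAlgebra ℤ G) →ₗ[MonoidAlgebra ℤ G]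
    (Fin (rank i) → MonoidAlgebra ℤ G)
  /-- exactness at `ℤ` -/
  aug_surjective : Function.Surjective aug
  /-- exactness at `C_0` (if `1 ≤ m`) -/
  exact_aug : 1 ≤ m → Function.Exact (d 0) aug
  /-- exactness at `C_(i+1)` (if `i + 2 ≤ m`) -/
  exact_d : ∀ i : ℕ, i + 2 ≤ m → Function.Exact (d (i + 1)) (d i)

/-- The kernel of `∂_m : C_m → C_(m-1)` (with `C_(-1) = ℤ`). -/
noncomputable def topKer {G : Type} [Group G] : (m : ℕ) → (C : PartialResolution G m) →
    Submodule (MonoidAlgebra ℤ G) (Fin (C.rank m) → MonoidAlgebra ℤ G)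
  | 0, C => LinearMap.ker C.aug
  | (k + 1), C => LinearMap.ker (C.d k)

/-- The Fox ideal: the two-sided ideal of `ℤG` generated by all coefficients of all elements of
the kernel of `∂_m`. -/
noncomputable def foxIdeal {G : Type} [Group G] {m : ℕ} (C : PartialResolution G m) :
    TwoSidedIdeal (MonoidAlgebra ℤ G) :=
  TwoSidedIdeal.span {c | ∃ x ∈ topKer m C, ∃ j, x j = c}

/-- The directed Euler characteristic `(-1)^m ∑_{i ≤ m} (-1)^i rk C_i`. -/
def directedEuler {G : Type} [Group G] {m : ℕ} (C : PartialResolution G m) : ℤ :=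
  (-1) ^ m * ∑ i ∈ Finset.range (m + 1), (-1) ^ i * (C.rank i : ℤ)

/-- `χ_m(G)`: the infimum (which is a minimum) of the directed Euler characteristics. -/
noncomputable def chiMin (G : Type) [Group G] (m : ℕ) : ℤ :=
  sInf (Set.range (directedEuler : PartialResolution G m → ℤ))

/-! ### Augmentation -/

section Aug

variable {G : Type} [Group G]

/-- augmentation `ℤG → ℤ` as a ring homomorphism -/
noncomputable def eps (G : Type) [Group G] : MonoidAlgebra ℤ G →+* ℤ :=
  (MonoidAlgebra.lift ℤ ℤ G (1 : G →* ℤ)).toRingHom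

theorem eps_of (g : G) : eps G (MonoidAlgebra.of ℤ G g) = 1 := by
  simp [eps]

theorem eps_smul (c : ℤ) (x : MonoidAlgebra ℤ G) : eps G (c • x) = c * eps G x := by
  simp [eps]

theorem asAlg (r : MonoidAlgebra ℤ G) (z : ℤ) :
    ((Representation.trivial ℤ G ℤ).asAlgebraHom r) z = eps G r * z := by
  induction r using MonoidAlgebra.induction_on with
  | of g => simp [eps]
  | add x y hx hy => rw [map_add, LinearMap.add_apply, hx, hy, map_add, add_mul]
  | smul c x hx =>
    rw [map_smul, LinearMap.smul_apply, hx]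
    simp [eps, mul_assoc]

/-- The augmentation as a linear map to the trivial module. -/
noncomputable def epsLin (G : Type) [Group G] :
    MonoidAlgebra ℤ G →ₗ[MonoidAlgebra ℤ G] TrivialModule G where
  toFun x := (Representation.trivial ℤ G ℤ).asModuleEquiv.symm (eps G x)
  map_add' x y := by simp
  map_smul' r x := by
    apply (Representation.trivial ℤ G ℤ).asModuleEquiv.injective
    rw [LinearEquiv.apply_symm_apply, RingHom.id_apply, Representation.asModuleEquiv_map_smul,
      LinearEquiv.apply_symm_apply, asAlg, smul_eq_mul, map_mul]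

theorem epsLin_eq_zero {x : MonoidAlgebra ℤ G} (h : epsLin G x = 0) : eps G x = 0 := by
  have := congrArg (Representation.trivial ℤ G ℤ).asModuleEquiv h
  simpa [epsLin] using this

theorem epsLin_of_eps {x : MonoidAlgebra ℤ G} (h : eps G x = 0) : epsLin G x = 0 := by
  simp [epsLin, h]

theorem mem_span_of_eps {b : ℕ} (g : Fin b → G) (hg : Subgroup.closure (Set.range g) = ⊤)
    (x : MonoidAlgebra ℤ G) (hx : eps G x = 0) :
    x ∈ Submodule.span (MonoidAlgebra ℤ G)
      (Set.range (fun j => MonoidAlgebra.of ℤ G (g j) - 1)) := by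
  set I := Submodule.span (MonoidAlgebra ℤ G)
    (Set.range (fun j => MonoidAlgebra.of ℤ G (g j) - 1)) with hI
  have h1 : ∀ h : G, MonoidAlgebra.of ℤ G h - 1 ∈ I := by
    intro h
    have hh : h ∈ Subgroup.closure (Set.range g) := by rw [hg]; trivial
    induction hh using Subgroup.closure_induction with
    | mem y hy =>
      obtain ⟨j, rfl⟩ := hy
      exact Submodule.subset_span ⟨j, rfl⟩
    | one => rw [map_one, sub_self]; exact I.zero_mem
    | mul y z _ _ hy hz =>
      have : MonoidAlgebra.of ℤ G (y * z) - 1 =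
          MonoidAlgebra.of ℤ G y • (MonoidAlgebra.of ℤ G z - 1)
            + (MonoidAlgebra.of ℤ G y - 1) := by
        rw [map_mul, smul_eq_mul]; noncomm_ring
      rw [this]
      exact I.add_mem (I.smul_mem _ hz) hy
    | inv y _ hy =>
      have : MonoidAlgebra.of ℤ G (y⁻¹) - 1 =
          (-MonoidAlgebra.of ℤ G y⁻¹) • (MonoidAlgebra.of ℤ G y - 1) := by
        rw [smul_eq_mul, mul_sub, neg_mul, ← map_mul, inv_mul_cancel, map_one]; noncomm_ring
      rw [this]
      exact I.smul_mem _ hy
  have h2 : ∀ x : MonoidAlgebra ℤ G, x - algebraMap ℤ _ (eps G x) ∈ I := by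
    intro x
    induction x using MonoidAlgebra.induction_on with
    | of g =>
      have := h1 g
      rw [eps_of, map_one]
      exact this
    | add x y hx hy =>
      have : x + y - algebraMap ℤ (MonoidAlgebra ℤ G) (eps G (x + y)) =
          (x - algebraMap ℤ _ (eps G x)) + (y - algebraMap ℤ _ (eps G y)) := by
        rw [map_add, map_add]; abel
      rw [this]
      exact I.add_mem hx hy
    | smul c x hx =>
      have : c • x - algebraMap ℤ (MonoidAlgebra ℤ G) (eps G (c • x)) =
          algebraMap ℤ (MonoidAlgebra ℤ G) c • (x - algebraMap ℤ _ (eps G x)) := by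
        rw [algebraMap_smul, smul_sub, eps_smul, map_mul, Algebra.smul_def c (algebraMap _ _ _)]
      rw [this]
      exact I.smul_mem _ hx
  have := h2 x
  rw [hx, map_zero, sub_zero] at this
  exact this

/-- The boundary map attached to a finite family of elements. -/
noncomputable def bd {b : ℕ} (g : Fin b → G) :
    (Fin b → MonoidAlgebra ℤ G) →ₗ[MonoidAlgebra ℤ G] (Fin 1 → MonoidAlgebra ℤ G) :=
  LinearMap.pi fun _ => Fintype.linearCombination (MonoidAlgebra ℤ G)
    (fun j => MonoidAlgebra.of ℤ G (g j) - 1)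

theorem bd_apply {b : ℕ} (g : Fin b → G) (x : Fin b → MonoidAlgebra ℤ G) (i : Fin 1) :
    bd g x i = ∑ j, x j * (MonoidAlgebra.of ℤ G (g j) - 1) := by
  simp [bd, Fintype.linearCombination_apply]

theorem aug_surj (G : Type) [Group G] : Function.Surjective
    ((epsLin G).comp (LinearMap.proj (R := MonoidAlgebra ℤ G)
      (φ := fun _ : Fin 1 => MonoidAlgebra ℤ G) (0 : Fin 1))) := by
  intro z
  refine ⟨fun _ => algebraMap ℤ _ ((Representation.trivial ℤ G ℤ).asModuleEquiv z), ?_⟩
  rw [LinearMap.comp_apply, LinearMap.proj_apply]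
  apply (Representation.trivial ℤ G ℤ).asModuleEquiv.injective
  simp [epsLin, eps]

theorem exact_bd {b : ℕ} (g : Fin b → G) (hg : Subgroup.closure (Set.range g) = ⊤) :
    Function.Exact (bd g) ((epsLin G).comp (LinearMap.proj (R := MonoidAlgebra ℤ G)
      (φ := fun _ : Fin 1 => MonoidAlgebra ℤ G) (0 : Fin 1))) := by
  intro x
  constructor
  · intro hx
    have h0 : eps G (x (0 : Fin 1)) = 0 := epsLin_eq_zero hx
    have h1 := mem_span_of_eps g hg _ h0
    rw [← Fintype.range_linearCombination] at h1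
    obtain ⟨y, hy⟩ := h1
    refine ⟨y, ?_⟩
    funext i
    have hi : i = (0 : Fin 1) := Subsingleton.elim _ _
    subst hi
    exact hy
  · rintro ⟨y, rfl⟩
    rw [LinearMap.comp_apply, LinearMap.proj_apply]
    apply epsLin_of_eps
    rw [bd_apply, map_sum]
    apply Finset.sum_eq_zero
    intro j _
    rw [map_mul, map_sub, eps_of, map_one, sub_self, mul_zero]

/-- ranks -/
def rk (b : ℕ) : ℕ → ℕ
  | 0 => 1
  | _ + 1 => b

/-- The first partial resolution attached to a finite generating family. -/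
noncomputable def ofGens {b : ℕ} (g : Fin b → G) (hg : Subgroup.closure (Set.range g) = ⊤) :
    PartialResolution G 1 where
  rank := rk b
  aug := (epsLin G).comp (LinearMap.proj (0 : Fin 1))
  d := fun i => match i with
    | 0 => bd g
    | _ + 1 => 0
  aug_surjective := aug_surj G
  exact_aug := fun _ => exact_bd g hg
  exact_d := by
    intro i hi
    omega

theorem directedEuler_ofGens {b : ℕ} (g : Fin b → G)
    (hg : Subgroup.closure (Set.range g) = ⊤) :
    directedEuler (ofGens g hg) = (b : ℤ) - 1 := by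
  simp [directedEuler, ofGens, rk, Finset.sum_range_succ]
  ring

/-- Lower bound for the directed Euler characteristic in degree one. -/
theorem directedEuler_ge (C : PartialResolution G 1) : -1 ≤ directedEuler C := by
  classical
  -- the reduced maps
  let dbar : (Fin (C.rank 1) → ℤ) →ₗ[ℤ] (Fin (C.rank 0) → ℤ) :=
    LinearMap.pi fun i => Fintype.linearCombination ℤ
      (fun j => eps G (C.d 0 (Pi.single j 1) i))
  let abar : (Fin (C.rank 0) → ℤ) →ₗ[ℤ] ℤ := Fintype.linearCombination ℤ
      (fun i => (Representation.trivial ℤ G ℤ).asModuleEquiv (C.aug (Pi.single i 1)))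
  have hd : ∀ y : Fin (C.rank 1) → MonoidAlgebra ℤ G,
      (fun i => eps G (C.d 0 y i)) = dbar (fun j => eps G (y j)) := by
    intro y
    funext i
    have hy : y = ∑ j, y j • (Pi.single j 1 : Fin (C.rank 1) → MonoidAlgebra ℤ G) := by
      funext k
      simp [Finset.sum_apply, Pi.single_apply]
    conv_lhs => rw [hy]
    rw [map_sum, Finset.sum_apply, map_sum]
    simp only [map_smul, Pi.smul_apply, smul_eq_mul, map_mul]
    simp [dbar, Fintype.linearCombination_apply]
  have ha : ∀ x : Fin (C.rank 0) → ℤ,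
      (Representation.trivial ℤ G ℤ).asModuleEquiv
        (C.aug (fun i => algebraMap ℤ (MonoidAlgebra ℤ G) (x i))) = abar x := by
    intro x
    have hy : (fun i => algebraMap ℤ (MonoidAlgebra ℤ G) (x i)) =
        ∑ j, (algebraMap ℤ (MonoidAlgebra ℤ G) (x j)) •
          (Pi.single j 1 : Fin (C.rank 0) → MonoidAlgebra ℤ G) := by
      funext k
      simp [Finset.sum_apply, Pi.single_apply]
    rw [hy, map_sum, map_sum]
    simp only [map_smul]
    simp only [Representation.asModuleEquiv_map_smul, asAlg]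
    simp [abar, Fintype.linearCombination_apply, eps]
  have hker : LinearMap.ker abar ≤ LinearMap.range dbar := by
    intro x hx
    rw [LinearMap.mem_ker, ← ha] at hx
    have hx' : C.aug (fun i => algebraMap ℤ (MonoidAlgebra ℤ G) (x i)) = 0 :=
      (Representation.trivial ℤ G ℤ).asModuleEquiv.injective (by simpa using hx)
    obtain ⟨y, hy⟩ := (C.exact_aug le_rfl _).1 hx'
    refine ⟨fun j => eps G (y j), ?_⟩
    rw [← hd, hy]
    funext i
    simp [eps]
  have h1 := (LinearMap.ker abar).finrank_quotient_add_finrank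
  have h2 := (LinearMap.ker dbar).finrank_quotient_add_finrank
  rw [abar.quotKerEquivRange.finrank_eq] at h1
  rw [dbar.quotKerEquivRange.finrank_eq] at h2
  have h3 : Module.finrank ℤ (LinearMap.ker abar) ≤ Module.finrank ℤ (LinearMap.range dbar) :=
    Submodule.finrank_mono hker
  have h4 : Module.finrank ℤ (LinearMap.range abar) ≤ Module.finrank ℤ ℤ :=
    Submodule.finrank_le _
  rw [Module.finrank_self] at h4
  rw [Module.finrank_fin_fun] at h1 h2
  have h5 : C.rank 0 ≤ C.rank 1 + 1 := by omega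
  have h6 : directedEuler C = (C.rank 1 : ℤ) - C.rank 0 := by
    simp [directedEuler, Finset.sum_range_succ]
    ring
  rw [h6]
  omega

end Aug

/-! ### The Fox ideal is killed by a ring homomorphism -/

section Fox

variable {G : Type} [Group G] {E : Type} [Ring E]

/-- the additive extension of a map to the group ring -/
noncomputable def extD {M : Type} [AddCommGroup M] (δ : G → M) : MonoidAlgebra ℤ G →ₗ[ℤ] M :=
  (Finsupp.linearCombination ℤ δ).comp (MonoidAlgebra.coeffLinearEquiv ℤ).toLinearMap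

theorem extD_of {M : Type} [AddCommGroup M] (δ : G → M) (g : G) :
    extD δ (MonoidAlgebra.of ℤ G g) = δ g := by
  simp [extD]

/-- The extension of a group homomorphism into units to the group ring. -/
noncomputable def rhoHat (ρ : G →* E) : MonoidAlgebra ℤ G →+* E :=
  (MonoidAlgebra.lift ℤ E G ρ).toRingHom

theorem rhoHat_of (ρ : G →* E) (g : G) : rhoHat ρ (MonoidAlgebra.of ℤ G g) = ρ g := by
  simp [rhoHat]

theorem extD_mul {M : Type} [AddCommGroup M] [Module E M] (ρ : G →* E) (δ : G → M)
    (hδ : ∀ g h, δ (g * h) = δ g + ρ g • δ h) (x : MonoidAlgebra ℤ G) (g : G) :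
    extD δ (x * (MonoidAlgebra.of ℤ G g - 1)) = rhoHat ρ x • δ g := by
  induction x using MonoidAlgebra.induction_on with
  | of h =>
    rw [mul_sub, mul_one, ← map_mul, map_sub, extD_of, extD_of, hδ, rhoHat_of, add_sub_cancel_left]
  | add x y hx hy => rw [add_mul, map_add, hx, hy, map_add, add_smul]
  | smul c x hx =>
    rw [smul_mul_assoc, map_smul, hx]
    simp [rhoHat, mul_smul, Int.cast_smul_eq_zsmul]

theorem rhoHat_coeff {b : ℕ} (g : Fin b → G) (ρ : G →* E) (δ : G → (Fin b → E))
    (hδ : ∀ g h, δ (g * h) = δ g + ρ g • δ h) (hb : ∀ j, δ (g j) = Pi.single j 1)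
    (x : Fin b → MonoidAlgebra ℤ G) (hx : bd g x = 0) (j : Fin b) : rhoHat ρ (x j) = 0 := by
  have h1 := congrArg (extD δ) (congrFun hx 0)
  rw [bd_apply, map_sum] at h1
  simp only [extD_mul ρ δ hδ, hb, Pi.zero_apply, map_zero] at h1
  have h2 := congrFun h1 j
  rw [Finset.sum_apply] at h2
  simpa [Pi.single_apply] using h2

theorem foxIdeal_ne_top [Nontrivial E] {b : ℕ} (g : Fin b → G)
    (hg : Subgroup.closure (Set.range g) = ⊤) (ρ : G →* E) (δ : G → (Fin b → E))
    (hδ : ∀ g h, δ (g * h) = δ g + ρ g • δ h) (hb : ∀ j, δ (g j) = Pi.single j 1) :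
    foxIdeal (ofGens g hg) ≠ ⊤ := by
  classical
  have hle : foxIdeal (ofGens g hg) ≤ TwoSidedIdeal.ker (rhoHat ρ) := by
    rw [foxIdeal, TwoSidedIdeal.span_le]
    rintro c ⟨x, hx, j, rfl⟩
    rw [SetLike.mem_coe, TwoSidedIdeal.mem_ker]
    exact rhoHat_coeff g ρ δ hδ hb x hx j
  intro htop
  rw [htop, top_le_iff] at hle
  have h1 : (1 : MonoidAlgebra ℤ G) ∈ TwoSidedIdeal.ker (rhoHat ρ) := by
    rw [hle]; trivial
  rw [TwoSidedIdeal.mem_ker, map_one] at h1
  exact one_ne_zero h1

end Fox

/-! ### The affine group and the example -/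

section Affine

/-- Affine maps `x ↦ u x + v` of the left module `E^b`. -/
@[ext]
structure Aff (E : Type) [Ring E] (b : ℕ) where
  /-- the linear part -/
  u : Eˣ
  /-- the translation part -/
  v : Fin b → E

variable {E : Type} [Ring E] {b : ℕ}

instance : Mul (Aff E b) := ⟨fun g h => ⟨g.u * h.u, g.v + (g.u : E) • h.v⟩⟩
instance : One (Aff E b) := ⟨⟨1, 0⟩⟩
instance : Inv (Aff E b) := ⟨fun g => ⟨g.u⁻¹, -((g.u⁻¹ : Eˣ) : E) • g.v⟩⟩

theorem mul_u (g h : Aff E b) : (g * h).u = g.u * h.u := rfl
theorem mul_v (g h : Aff E b) : (g * h).v = g.v + (g.u : E) • h.v := rfl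
theorem one_u : (1 : Aff E b).u = 1 := rfl
theorem one_v : (1 : Aff E b).v = 0 := rfl
theorem inv_u (g : Aff E b) : (g⁻¹).u = g.u⁻¹ := rfl
theorem inv_v (g : Aff E b) : (g⁻¹).v = -((g.u⁻¹ : Eˣ) : E) • g.v := rfl

instance : Group (Aff E b) :=
  Group.ofLeftAxioms
    (by
      intro a b c
      ext1
      · simp only [mul_u, mul_assoc]
      · simp only [mul_u, mul_v, smul_add, Units.val_mul, smul_smul, add_assoc])
    (by
      intro a
      ext1
      · simp only [mul_u, one_u, one_mul]
      · simp only [mul_v, one_u, one_v, Units.val_one, one_smul, zero_add])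
    (by
      intro a
      ext1
      · simp only [mul_u, inv_u, one_u, inv_mul_cancel]
      · simp only [mul_v, inv_u, inv_v, one_v, neg_smul, neg_add_cancel])

/-- translation -/
def tr (v : Fin b → E) : Aff E b := ⟨1, v⟩

theorem tr_add (v w : Fin b → E) : tr (v + w) = tr v * tr w := by
  ext1
  · simp [tr, mul_u]
  · simp [tr, mul_v]

theorem conj_tr (g : Aff E b) (v : Fin b → E) : g * tr v * g⁻¹ = tr ((g.u : E) • v) := by
  ext1
  · simp [tr, mul_u, inv_u]
  · simp [tr, mul_u, mul_v, inv_v, smul_smul]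

theorem conj_tr' (g : Aff E b) (v : Fin b → E) :
    g⁻¹ * tr v * g = tr (((g.u⁻¹ : Eˣ) : E) • v) := by
  have := conj_tr g⁻¹ v
  rwa [inv_inv] at this

theorem smul_mem_of {H : Subgroup (Aff E b)} {g : Aff E b} (hg : g ∈ H) {v : Fin b → E}
    (hv : tr v ∈ H) : tr (((g.u : E) + ((g.u⁻¹ : Eˣ) : E)) • v) ∈ H := by
  rw [add_smul, tr_add, ← conj_tr, ← conj_tr']
  exact H.mul_mem (H.mul_mem (H.mul_mem hg hv) (H.inv_mem hg))
    (H.mul_mem (H.mul_mem (H.inv_mem hg) hv) hg)

end Affine

/-! ### The coefficient ring -/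

/-- endomorphisms of the abelian group of integer sequences -/
abbrev E₀ : Type := Module.End ℤ (ℕ → ℤ)

/-- `(s₁ f)(k) = f (2k)` -/
def s₁ : E₀ where
  toFun f := fun k => f (2 * k)
  map_add' _ _ := rfl
  map_smul' _ _ := rfl

/-- `(s₂ f)(k) = f (2k+1)` -/
def s₂ : E₀ where
  toFun f := fun k => f (2 * k + 1)
  map_add' _ _ := rfl
  map_smul' _ _ := rfl

/-- `(t₁ f)(k) = f (k/2)` for even `k`, and `0` for odd `k` -/
def t₁ : E₀ where
  toFun f := fun k => if k % 2 = 0 then f (k / 2) else 0
  map_add' f g := by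
    funext k
    by_cases h : k % 2 = 0 <;> simp [h]
  map_smul' c f := by
    funext k
    by_cases h : k % 2 = 0 <;> simp [h]

/-- `(t₂ f)(k) = f (k/2)` for odd `k`, and `0` for even `k` -/
def t₂ : E₀ where
  toFun f := fun k => if k % 2 = 1 then f (k / 2) else 0
  map_add' f g := by
    funext k
    by_cases h : k % 2 = 1 <;> simp [h]
  map_smul' c f := by
    funext k
    by_cases h : k % 2 = 1 <;> simp [h]

theorem s₁t₁ : s₁ * t₁ = 1 := by
  ext f k
  simp [s₁, t₁]

theorem s₁t₂ : s₁ * t₂ = 0 := by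
  ext f k
  simp [s₁, t₂]

theorem s₂t₁ : s₂ * t₁ = 0 := by
  ext f k
  simp [s₂, t₁]

theorem s₂t₂ : s₂ * t₂ = 1 := by
  ext f k
  have h : (2 * k + 1) / 2 = k := by omega
  simp [s₂, t₂, h]

/-- the coefficient ring -/
abbrev E : Type := Matrix (Fin 2) (Fin 2) E₀

/-- The unit `[t, 1; -1, 0]` with inverse `[0, -1; 1, t]`. -/
def U (t : E₀) : Eˣ where
  val := !![t, 1; -1, 0]
  inv := !![0, -1; 1, t]
  val_inv := by
    ext i j
    fin_cases i <;> fin_cases j <;> simp [Matrix.mul_apply, Fin.sum_univ_two]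
  inv_val := by
    ext i j
    fin_cases i <;> fin_cases j <;> simp [Matrix.mul_apply, Fin.sum_univ_two]

theorem U_add (t : E₀) : ((U t : Eˣ) : E) + (((U t)⁻¹ : Eˣ) : E) = !![t, 0; 0, t] := by
  change !![t, 1; -1, 0] + !![0, -1; 1, t] = _
  ext i j
  fin_cases i <;> fin_cases j <;> simp

/-- scalar matrices -/
theorem diag_mul (a b : E₀) : (!![a, 0; 0, a] : E) * !![b, 0; 0, b] = !![a * b, 0; 0, a * b] := by
  ext i j
  fin_cases i <;> fin_cases j <;> simp [Matrix.mul_apply, Fin.sum_univ_two]

theorem diag_one : (!![1, 0; 0, 1] : E) = 1 := by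
  ext i j
  fin_cases i <;> fin_cases j <;> simp

theorem diag_zero : (!![0, 0; 0, 0] : E) = 0 := by
  ext i j
  fin_cases i <;> fin_cases j <;> simp

/-- The linear parts of the six generators. -/
def lin : Fin 6 → Eˣ := ![U s₁, U s₂, U t₁, U t₂, 1, 1]

/-- The six generators of the example inside the affine group. -/
def gen : Fin 6 → Aff E 6 := fun j => ⟨lin j, Pi.single j 1⟩

/-- The group of the example. -/
abbrev Gex : Type := Subgroup.closure (Set.range gen)

/-- The six generators of the example. -/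
def gen' : Fin 6 → Gex := fun j => ⟨gen j, Subgroup.subset_closure ⟨j, rfl⟩⟩

/-- `w = t₁ e₄ + t₂ e₅` -/
def wvec : Fin 6 → E :=
  (!![t₁, 0; 0, t₁] : E) • Pi.single 4 1 + (!![t₂, 0; 0, t₂] : E) • Pi.single 5 1

theorem tr_four : gen 4 = tr (Pi.single 4 1) := rfl

theorem tr_five : gen 5 = tr (Pi.single 5 1) := rfl

theorem tr_wvec_mem : tr wvec ∈ Subgroup.closure (Set.range gen) := by
  have hm : ∀ j, gen j ∈ Subgroup.closure (Set.range gen) := fun j =>
    Subgroup.subset_closure ⟨j, rfl⟩
  have h1 := smul_mem_of (hm 2) (v := Pi.single 4 1) (by rw [← tr_four]; exact hm 4)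
  have h2 := smul_mem_of (hm 3) (v := Pi.single 5 1) (by rw [← tr_five]; exact hm 5)
  rw [wvec, tr_add]
  refine Subgroup.mul_mem _ ?_ ?_
  · convert h1 using 3
    exact (U_add t₁).symm
  · convert h2 using 3
    exact (U_add t₂).symm

/-- The five generators. -/
def gen5 : Fin 5 → Gex :=
  ![gen' 0, gen' 1, gen' 2, gen' 3, ⟨tr wvec, tr_wvec_mem⟩]

theorem s₁_wvec : (!![s₁, 0; 0, s₁] : E) • wvec = Pi.single 4 1 := by
  rw [wvec, smul_add, smul_smul, smul_smul, diag_mul, diag_mul, s₁t₁, s₁t₂, diag_one, diag_zero,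
    one_smul, zero_smul, add_zero]

theorem s₂_wvec : (!![s₂, 0; 0, s₂] : E) • wvec = Pi.single 5 1 := by
  rw [wvec, smul_add, smul_smul, smul_smul, diag_mul, diag_mul, s₂t₁, s₂t₂, diag_one, diag_zero,
    one_smul, zero_smul, zero_add]

theorem closure_gen' : Subgroup.closure (Set.range gen') = ⊤ := by
  have h := Subgroup.closure_closure_coe_preimage (k := Set.range gen)
  convert h using 2
  ext x
  simp only [Set.mem_range, Set.mem_preimage]
  constructor
  · rintro ⟨j, rfl⟩
    exact ⟨j, rfl⟩
  · rintro ⟨j, hj⟩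
    exact ⟨j, Subtype.ext hj⟩

theorem closure_gen5 : Subgroup.closure (Set.range gen5) = ⊤ := by
  rw [eq_top_iff, ← closure_gen', Subgroup.closure_le]
  have hm : ∀ j, gen5 j ∈ Subgroup.closure (Set.range gen5) := fun j =>
    Subgroup.subset_closure ⟨j, rfl⟩
  -- the image in the affine group
  set H : Subgroup (Aff E 6) := (Subgroup.closure (Set.range gen5)).map
    (Subgroup.closure (Set.range gen)).subtype with hH
  have hmem : ∀ x : Gex, (x : Aff E 6) ∈ H ↔ x ∈ Subgroup.closure (Set.range gen5) := by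
    intro x
    rw [hH, Subgroup.mem_map]
    constructor
    · rintro ⟨y, hy, hyx⟩
      have : y = x := Subtype.ext hyx
      rwa [← this]
    · intro hx
      exact ⟨x, hx, rfl⟩
  have hw : tr wvec ∈ H := (hmem (gen5 4)).2 (hm 4)
  have h0 : gen 0 ∈ H := (hmem (gen5 0)).2 (hm 0)
  have h1 : gen 1 ∈ H := (hmem (gen5 1)).2 (hm 1)
  have h4 : gen 4 ∈ H := by
    have := smul_mem_of h0 hw
    rw [tr_four, ← s₁_wvec, ← U_add]
    exact this
  have h5 : gen 5 ∈ H := by
    have := smul_mem_of h1 hw
    rw [tr_five, ← s₂_wvec, ← U_add]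
    exact this
  rintro x ⟨j, rfl⟩
  fin_cases j
  · exact hm 0
  · exact hm 1
  · exact hm 2
  · exact hm 3
  · exact (hmem _).1 h4
  · exact (hmem _).1 h5

/-- the linear representation of the example group -/
def rhoEx : Gex →* E where
  toFun g := ((g : Aff E 6).u : E)
  map_one' := rfl
  map_mul' _ _ := rfl

/-- **There is a finitely generated group `G` and a finitely generated free first partial
resolution of `G` with non-minimal directed Euler characteristic whose Fox ideal is proper.** -/
theorem result : ∃ (G : Type) (_ : Group G) (m : ℕ) (C : PartialResolution G m),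
    IsLeast (Set.range (directedEuler : PartialResolution G m → ℤ)) (chiMin G m) ∧
      chiMin G m < directedEuler C ∧ foxIdeal C ≠ ⊤ := by
  refine ⟨Gex, inferInstance, 1, ofGens gen' closure_gen', ?_, ?_, ?_⟩
  · have hb : BddBelow (Set.range (directedEuler : PartialResolution Gex 1 → ℤ)) := by
      refine ⟨-1, ?_⟩
      rintro _ ⟨C, rfl⟩
      exact directedEuler_ge C
    have hne : (Set.range (directedEuler : PartialResolution Gex 1 → ℤ)).Nonempty :=
      ⟨_, ⟨ofGens gen' closure_gen', rfl⟩⟩
    exact ⟨Int.csInf_mem hne hb, fun x hx => csInf_le hb hx⟩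
  · have hb : BddBelow (Set.range (directedEuler : PartialResolution Gex 1 → ℤ)) := by
      refine ⟨-1, ?_⟩
      rintro _ ⟨C, rfl⟩
      exact directedEuler_ge C
    have h1 : chiMin Gex 1 ≤ directedEuler (ofGens gen5 closure_gen5) :=
      csInf_le hb ⟨_, rfl⟩
    rw [directedEuler_ofGens] at h1 ⊢
    push_cast at h1 ⊢
    linarith
  · refine foxIdeal_ne_top gen' closure_gen' rhoEx (fun g => (g : Aff E 6).v) ?_ ?_
    · intro g h
      rfl
    · intro j
      rfl

end Pool.Agent.Results.MP_cfa383_al.FoxIdeal
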